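import Pool.Agent.Y571.UB.Stm

/-!
Second moment of the step law over random generators.
-/

set_option autoImplicit false

open Finset
open Pool.Agent.H632R3.RCG

namespace Pool.Agent.Y235.UB

open Pool.Agent.Y571.UB

variable {G : Type} [Group G] {k : ℕ}

/-- the product of the generators along a word -/
def pr {n : ℕ} (Z : Fin k → G) (w : Fin n → Fin k) : G := (List.ofFn fun j => Z (w j)).prod

lemma pr_succ {n : ℕ} (Z : Fin k → G) (w : Fin (n + 1) → Fin k) :
    pr Z w = Z (w 0) * pr Z (fun x => w x.succ) := by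
  unfold pr
  rw [List.ofFn_succ, List.prod_cons]

lemma pr_off {n : ℕ} {Z Z' : Fin k → G} {i : Fin k} (h : ∀ j, j ≠ i → Z j = Z' j)
    (w : Fin n → Fin k) (hw : ∀ x, w x ≠ i) : pr Z w = pr Z' w := by
  have e : (fun j => Z (w j)) = fun j => Z' (w j) := by
    funext x
    exact h _ (hw x)
  unfold pr
  rw [e]

lemma pr_one {n : ℕ} {Z Z' : Fin k → G} {i : Fin k} (h : ∀ j, j ≠ i → Z j = Z' j) :
    ∀ (w : Fin n → Fin k) (x0 : Fin n), w x0 = i → (∀ x, x ≠ x0 → w x ≠ i) →
      pr Z w = pr Z' w → Z i = Z' i := by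
  induction n with
  | zero => intro w x0; exact x0.elim0
  | succ n ih =>
    intro w x0 h0 h1 he
    rw [pr_succ, pr_succ] at he
    induction x0 using Fin.cases with
    | zero =>
      rw [pr_off h (fun x => w x.succ) (fun x => h1 _ (Fin.succ_ne_zero x)), h0] at he
      exact mul_right_cancel he
    | succ y =>
      rw [h (w 0) (h1 0 (Fin.succ_ne_zero y).symm)] at he
      exact ih (fun x => w x.succ) y h0
        (fun x hx => h1 _ (fun e => hx (Fin.succ_injective _ e))) (mul_left_cancel he)

lemma key_aux {n : ℕ} {w w' : Fin n → Fin k} {i : Fin k}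
    (h0 : (univ.filter fun x => w x = i).card = 0)
    (hc : (univ.filter fun x => w' x = i).card = 1) {Z Z' : Fin k → G}
    (h1 : pr Z w = pr Z w') (h2 : pr Z' w = pr Z' w') (h : ∀ j, j ≠ i → Z j = Z' j) :
    Z i = Z' i := by
  have hw : ∀ x, w x ≠ i := by
    intro x hx
    have : x ∈ univ.filter fun x => w x = i := by simp [hx]
    rw [Finset.card_eq_zero] at h0
    rw [h0] at this
    simp at this
  obtain ⟨x0, hx0⟩ := Finset.card_eq_one.1 hc
  have a1 : w' x0 = i := by
    have : x0 ∈ univ.filter fun x => w' x = i := by rw [hx0]; simp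
    simpa using this
  have a2 : ∀ x, x ≠ x0 → w' x ≠ i := by
    intro x hx he
    have : x ∈ univ.filter fun x => w' x = i := by simp [he]
    rw [hx0] at this
    exact hx (by simpa using this)
  refine pr_one h w' x0 a1 a2 ?_
  rw [← h1, ← h2]
  exact pr_off h w hw

lemma count_bound [Fintype G] [DecidableEq G] {n : ℕ} (w w' : Fin n → Fin k) (i : Fin k)
    (hi : (univ.filter fun x => w x = i).card + (univ.filter fun x => w' x = i).card = 1) :
    (univ.filter fun Z : Fin k → G => pr Z w = pr Z w').card * Fintype.card G ≤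
      Fintype.card G ^ k := by
  classical
  have key : ∀ Z Z' : Fin k → G, pr Z w = pr Z w' → pr Z' w = pr Z' w' →
      (∀ j, j ≠ i → Z j = Z' j) → Z = Z' := by
    intro Z Z' h1 h2 h
    have hi' : Z i = Z' i := by
      rcases Nat.eq_zero_or_pos (univ.filter fun x => w x = i).card with h0 | h0
      · exact key_aux h0 (by omega) h1 h2 h
      · exact key_aux (w := w') (w' := w) (by omega) (by omega) h1.symm h2.symm h
    funext j
    by_cases hj : j = i
    · rw [hj]; exact hi'
    · exact h j hj
  have hcard := Finset.card_le_card_of_injOn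
    (s := (univ.filter fun Z : Fin k → G => pr Z w = pr Z w') ×ˢ (univ : Finset G))
    (t := (univ : Finset (Fin k → G))) (fun p => Function.update p.1 i p.2)
    (fun _ _ => Finset.mem_univ _) (by
      rintro ⟨Z, g⟩ hZ ⟨Z', g'⟩ hZ' he
      simp only [Finset.coe_product, Set.mem_prod, Finset.mem_coe, Finset.mem_filter,
        Finset.mem_univ, true_and, and_true] at hZ hZ'
      simp only at he
      have hg : g = g' := by
        have := congrFun he i
        simpa using this
      have hZZ : Z = Z' := key Z Z' hZ hZ' fun j hj => by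
        have := congrFun he j
        simpa [Function.update_of_ne hj] using this
      rw [hg, hZZ])
  rwa [Finset.card_product, Finset.card_univ, Finset.card_univ, Fintype.card_fun,
    Fintype.card_fin] at hcard

lemma sq_count [Fintype G] [DecidableEq G] {n : ℕ} (Z : Fin k → G) :
    ∑ g : G, ((univ.filter fun w : Fin n → Fin k => pr Z w = g).card : ℝ) ^ 2 =
      ∑ p : (Fin n → Fin k) × (Fin n → Fin k), if pr Z p.1 = pr Z p.2 then (1 : ℝ) else 0 := by
  rw [Fintype.sum_prod_type]
  have h1 : ∀ g : G, ((univ.filter fun w : Fin n → Fin k => pr Z w = g).card : ℝ) ^ 2 =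
      ∑ w : Fin n → Fin k, ∑ w' : Fin n → Fin k,
        (if pr Z w = g then (1 : ℝ) else 0) * (if pr Z w' = g then (1 : ℝ) else 0) := by
    intro g
    rw [Finset.card_filter]
    push_cast
    rw [pow_two, Finset.sum_mul_sum]
  simp_rw [h1]
  rw [Finset.sum_comm]
  refine Finset.sum_congr rfl fun w _ => ?_
  rw [Finset.sum_comm]
  refine Finset.sum_congr rfl fun w' _ => ?_
  rw [Finset.sum_eq_single (pr Z w)]
  · by_cases h : pr Z w = pr Z w'
    · simp [h]
    · simp [h, Ne.symm h]
  · intro g _ hg
    simp [Ne.symm hg]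
  · intro h
    exact absurd (Finset.mem_univ _) h

theorem sm : S_SM := by
  classical
  intro G _ _ n k hk
  have hG : (0 : ℝ) < Fintype.card G := by exact_mod_cast Fintype.card_pos
  have hk' : (0 : ℝ) < (k : ℝ) ^ (2 * n) := by
    have : (0 : ℝ) < k := by exact_mod_cast hk
    positivity
  have hs : ∀ (Z : Fin k → G) (g : G), stepLaw Z n g =
      ((univ.filter fun w : Fin n → Fin k => pr Z w = g).card : ℝ) / (k : ℝ) ^ n := by
    intro Z g
    unfold stepLaw pr
    congr!
  -- expansion of the square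
  have h4 : ∀ Z : Fin k → G, ∑ g : G, (stepLaw Z n g - 1 / (Fintype.card G : ℝ)) ^ 2 =
      (∑ p : (Fin n → Fin k) × (Fin n → Fin k), if pr Z p.1 = pr Z p.2 then (1 : ℝ) else 0) /
        (k : ℝ) ^ (2 * n) - 1 / (Fintype.card G : ℝ) := by
    intro Z
    have h1 := stepLaw_sum hk Z n univ fun _ => Finset.mem_univ _
    have h2 : ∑ g : G, stepLaw Z n g ^ 2 =
        (∑ p : (Fin n → Fin k) × (Fin n → Fin k),
          if pr Z p.1 = pr Z p.2 then (1 : ℝ) else 0) / (k : ℝ) ^ (2 * n) := by
      rw [← sq_count, Finset.sum_div]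
      refine Finset.sum_congr rfl fun g _ => ?_
      rw [hs, div_pow, ← pow_mul, mul_comm n 2]
    rw [← h2]
    have h3 : ∀ g : G, (stepLaw Z n g - 1 / (Fintype.card G : ℝ)) ^ 2 =
        stepLaw Z n g ^ 2 - 2 / (Fintype.card G : ℝ) * stepLaw Z n g +
          1 / (Fintype.card G : ℝ) ^ 2 := fun g => by
      field_simp
      ring
    simp_rw [h3]
    rw [Finset.sum_add_distrib, Finset.sum_sub_distrib, ← Finset.mul_sum, h1]
    simp only [Finset.sum_const, Finset.card_univ, nsmul_eq_mul]
    field_simp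
    ring
  simp_rw [h4]
  rw [Finset.sum_sub_distrib, ← Finset.sum_div, Finset.sum_comm]
  simp only [Finset.sum_const, Finset.card_univ, nsmul_eq_mul, Fintype.card_fun,
    Fintype.card_fin]
  have h5 : ∀ p : (Fin n → Fin k) × (Fin n → Fin k),
      (∑ Z : Fin k → G, if pr Z p.1 = pr Z p.2 then (1 : ℝ) else 0) ≤
        (Fintype.card G : ℝ) ^ k / (Fintype.card G : ℝ) +
          (if (∀ i : Fin k, (univ.filter fun x => p.1 x = i).card +
            (univ.filter fun x => p.2 x = i).card ≠ 1) then (Fintype.card G : ℝ) ^ k else 0) := by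
    intro p
    have e : (∑ Z : Fin k → G, if pr Z p.1 = pr Z p.2 then (1 : ℝ) else 0) =
        ((univ.filter fun Z : Fin k → G => pr Z p.1 = pr Z p.2).card : ℝ) := by
      rw [Finset.card_filter]
      push_cast
      rfl
    rw [e]
    by_cases hp : ∀ i : Fin k, (univ.filter fun x => p.1 x = i).card +
            (univ.filter fun x => p.2 x = i).card ≠ 1
    · rw [if_pos hp]
      have h6 : ((univ.filter fun Z : Fin k → G => pr Z p.1 = pr Z p.2).card : ℝ) ≤
          (Fintype.card G : ℝ) ^ k := by
        have := Finset.card_le_univ (univ.filter fun Z : Fin k → G => pr Z p.1 = pr Z p.2)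
        rw [Fintype.card_fun, Fintype.card_fin] at this
        exact_mod_cast this
      have h7 : 0 ≤ (Fintype.card G : ℝ) ^ k / (Fintype.card G : ℝ) := by positivity
      linarith
    · rw [if_neg hp, add_zero, le_div_iff₀ hG]
      push Not at hp
      obtain ⟨i, hi⟩ := hp
      exact_mod_cast count_bound p.1 p.2 i hi
  have h8 : (∑ p : (Fin n → Fin k) × (Fin n → Fin k),
      ∑ Z : Fin k → G, if pr Z p.1 = pr Z p.2 then (1 : ℝ) else 0) ≤
      (k : ℝ) ^ (2 * n) * ((Fintype.card G : ℝ) ^ k / (Fintype.card G : ℝ)) +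
        (bad n k : ℝ) * (Fintype.card G : ℝ) ^ k := by
    refine (Finset.sum_le_sum fun p _ => h5 p).trans (le_of_eq ?_)
    rw [Finset.sum_add_distrib]
    congr 1
    · simp only [Finset.sum_const, Finset.card_univ, nsmul_eq_mul, Fintype.card_prod,
        Fintype.card_fun, Fintype.card_fin]
      push_cast
      ring
    · rw [← Finset.sum_filter, Finset.sum_const, nsmul_eq_mul]
      congr 2
  have h9 : (∑ p : (Fin n → Fin k) × (Fin n → Fin k),
      ∑ Z : Fin k → G, if pr Z p.1 = pr Z p.2 then (1 : ℝ) else 0) / (k : ℝ) ^ (2 * n) ≤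
      (Fintype.card G : ℝ) ^ k / (Fintype.card G : ℝ) +
        (Fintype.card G : ℝ) ^ k * ((bad n k : ℝ) / (k : ℝ) ^ (2 * n)) := by
    rw [div_le_iff₀ hk']
    refine h8.trans (le_of_eq ?_)
    field_simp
  push_cast
  have h10 : (Fintype.card G : ℝ) ^ k * (1 / (Fintype.card G : ℝ)) =
      (Fintype.card G : ℝ) ^ k / (Fintype.card G : ℝ) := by ring
  rw [h10]
  linarith

end Pool.Agent.Y235.UB
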